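import Pool.Agent.Work.Monodromy7.All7
import Pool.Agent.Work.Monodromy.FinalB

/-!
The monodromy conjecture for the topological zeta function of formulas with arbitrary binary gates:
the smallest class of polynomials which contains all nonconstant polynomials in any number of
variables with finitely many critical points, all of them semi-quasi-homogeneous, and the nonconstant
products of linear forms in powers of the variables, and is closed under all gates `P(f(x), g(y))` in
separate variables (`P` a nonconstant polynomial in two variables), compositions with polynomials in
one variable, additional variables and automorphisms.  It contains all nonconstant polynomials in two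
variables, and it is closed under sums and products in separate variables.
-/

namespace Pool.Agent.Results.MP_a2a574_ag.BinaryGates

open MvPolynomial Pool.Agent.Mono

/-- For every formula `f` with binary gates and every pole `s` of its topological zeta function,
`exp(2πis)` is a monodromy eigenvalue of `f`. -/
theorem result {n : ℕ} (f : MvPolynomial (Fin n) ℂ) (hf : GateFormula (Fin n) f)
    (E : HodgeMeasure) (R : RatFunc ℚ) (hR : IsTopologicalZeta E f R) (s : ℂ)
    (hs : Polynomial.aeval s R.denom = 0) :
    IsMonodromyEigenvalue f (Complex.exp (2 * Real.pi * Complex.I * s)) :=
  (isMonodromyEigenvalue_iff _ _).2 (RO.mc_gate hf E R hR s hs)

end Pool.Agent.Results.MP_a2a574_ag.BinaryGates
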