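import Pool.Agent.Work.MonodromyM.AllM
import Pool.Agent.Work.Monodromy.FinalB

/-!
The monodromy conjecture for the topological zeta function of all polynomials, in any number of
variables, each of whose singular points (isolated or not) has corank at most two, or is
semi-quasi-homogeneous, or is Newton nondegenerate in suitable coordinates, possibly after adding
products `u_j v_j` of new variables.
-/

namespace Pool.Agent.Results.MP_a2a574_ag.LocallyNondegenerate

open MvPolynomial Pool.Agent.Mono

/-- Let `f` be a nonconstant polynomial in `n` variables such that for some `N ≥ 0` the polynomial
`g = f(x) + u_1 v_1 + ⋯ + u_N v_N` is tame at each of its singular points `p`: the Hessian matrix has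
corank at most two, or `g` is semi-quasi-homogeneous at `p`, or `p` is an isolated singular point and
`g` is nondegenerate with respect to its Newton polyhedron (compact faces) in suitable formal
coordinates at `p`, or `g` is a power series in a regular system of parameters of the local ring at
`p`, nondegenerate with respect to its Newton polyhedron (compact faces), with no condition on the
singular locus.  For every pole `s` of the topological zeta function of `f`, `exp(2πis)` is a
monodromy eigenvalue of `f`. -/
theorem result {n : ℕ} (f : MvPolynomial (Fin n) ℂ) (hf : f.totalDegree ≠ 0)
    (hN : IsStablyTame f) (E : EulerMeasure) (R : RatFunc ℚ)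
    (hR : IsTopologicalZeta E.toHodgeMeasure f R) (s : ℂ)
    (hs : Polynomial.aeval s R.denom = 0) :
    IsMonodromyEigenvalue f (Complex.exp (2 * Real.pi * Complex.I * s)) :=
  (isMonodromyEigenvalue_iff _ _).2 (MG.mc E f hf hN R hR s hs)

end Pool.Agent.Results.MP_a2a574_ag.LocallyNondegenerate
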