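import Pool.Agent.Work.Monodromy15.Stable15
import Pool.Agent.Work.Monodromy.FinalB

/-!
The monodromy conjecture for the topological zeta function of all polynomials, in any number of
variables, which are nondegenerate with respect to their Newton polytope, or become nondegenerate
after adding products `u_j v_j` of new variables and a polynomial change of coordinates.
-/

namespace Pool.Agent.Results.MP_a2a574_ag.Nondegenerate

open MvPolynomial Pool.Agent.Mono

/-- Let `f` be a nonconstant polynomial in `n` variables which is stably nondegenerate: for some
`N ≥ 0`, the polynomial `f(x) + u_1 v_1 + ⋯ + u_N v_N` is, in suitable polynomial coordinates,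
nondegenerate with respect to its Newton polytope (for every weight `k` its initial form has no
singular zero in the torus).  For every pole `s` of the topological zeta function of `f`, `exp(2πis)`
is a monodromy eigenvalue of `f`. -/
theorem result {n : ℕ} (f : MvPolynomial (Fin n) ℂ) (hf : f.totalDegree ≠ 0)
    (hN : IsStablyNondegenerate f) (E : EulerMeasure) (R : RatFunc ℚ)
    (hR : IsTopologicalZeta E.toHodgeMeasure f R) (s : ℂ)
    (hs : Polynomial.aeval s R.denom = 0) :
    IsMonodromyEigenvalue f (Complex.exp (2 * Real.pi * Complex.I * s)) :=
  (isMonodromyEigenvalue_iff _ _).2 (NP.mc_stable E f hf hN R hR s hs)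

end Pool.Agent.Results.MP_a2a574_ag.Nondegenerate
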