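import Pool.Agent.Work.Monodromy8.All8
import Pool.Agent.Work.Monodromy.FinalB

/-!
The strong monodromy conjecture for the smallest poles of the topological zeta functions of all polynomials
in `n ≥ 3` variables: all poles `s < -(n-1)/2` are of the form `-(n-1)/2 - 1/i` and roots of the
Bernstein-Sato polynomial, so `exp(2πis)` is a monodromy eigenvalue.
-/

namespace Pool.Agent.Results.MP_a2a574_ag.SmallestPoles

open MvPolynomial Pool.Agent.Mono

/-- For every nonconstant polynomial `f` in `n ≥ 3` variables, every pole `s` of its topological zeta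
function with `Re s < -(n-1)/2` is of the form `-(n-1)/2 - 1/i`, `i ≥ 2`, and a root of the
Bernstein-Sato polynomial of `f`; in particular `exp(2πis)` is a monodromy eigenvalue of `f`. -/
theorem result {n : ℕ} (hn : 3 ≤ n) (f : MvPolynomial (Fin n) ℂ) (hf : f.totalDegree ≠ 0)
    (E : HodgeMeasure) (R : RatFunc ℚ) (hR : IsTopologicalZetaDL E f R) (s : ℂ)
    (hs : Polynomial.aeval s R.denom = 0) (hlt : s.re < -((n : ℝ) - 1) / 2) :
    (∃ i : ℕ, 2 ≤ i ∧ s = -((n : ℂ) - 1) / 2 - 1 / (i : ℂ)) ∧
      (∃ b : Polynomial ℂ, IsBernsteinSato f b ∧ b.eval s = 0) ∧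
        IsMonodromyEigenvalue f (Complex.exp (2 * Real.pi * Complex.I * s)) := by
  have h := SP.mc_small E f hf (by simpa using hn) R hR s hs (by simpa using hlt)
  exact ⟨by simpa using h.1, SP.lowP_root h.2⟩

end Pool.Agent.Results.MP_a2a574_ag.SmallestPoles
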